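import Pool.Agent.Helper13.Sof.Goals

/-!
Packet HEIS of MP_1f9cc6_al: two projections attached to a Heisenberg pair.
-/

set_option autoImplicit false
set_option linter.unusedSectionVars false

open Finset InnerProductSpace

noncomputable section

namespace Pool.Agent.Helper75.Sof

open Pool.Agent.Helper13.Sof

variable {V : Type*} [NormedAddCommGroup V] [InnerProductSpace ℝ V]

/-- the average of the powers -/
def av (p : ℕ) (X : Module.End ℝ V) : Module.End ℝ V := (p : ℝ)⁻¹ • ∑ a ∈ range p, X ^ a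

/-- isometric operators -/
def Iso (X : Module.End ℝ V) : Prop := ∀ u v, ⟪X u, X v⟫_ℝ = ⟪u, v⟫_ℝ

lemma Iso.pow {X : Module.End ℝ V} (h : Iso X) (a : ℕ) : Iso (X ^ a) := by
  induction a with
  | zero => intro u v; simp
  | succ n ih =>
    intro u v
    rw [pow_succ, Module.End.mul_apply, Module.End.mul_apply, ih, h]

variable {p : ℕ} {X Y Z : Module.End ℝ V}

lemma mul_sum_pow (hX : X ^ p = 1) : X * ∑ a ∈ range p, X ^ a = ∑ a ∈ range p, X ^ a := by
  rw [mul_sum]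
  have h1 : ∑ a ∈ range p, X * X ^ a = ∑ a ∈ range p, X ^ (a + 1) :=
    sum_congr rfl fun a _ => (pow_succ' X a).symm
  rw [h1]
  have h2 := sum_range_succ' (fun a => X ^ a) p
  rw [sum_range_succ, hX, pow_zero] at h2
  exact (add_right_cancel h2).symm

lemma mul_av (hX : X ^ p = 1) : X * av p X = av p X := by
  unfold av
  rw [mul_smul_comm, mul_sum_pow hX]

lemma pow_mul_av (hX : X ^ p = 1) (a : ℕ) : X ^ a * av p X = av p X := by
  induction a with
  | zero => rw [pow_zero, one_mul]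
  | succ n ih => rw [pow_succ, mul_assoc, mul_av hX, ih]

lemma commute_av {W : Module.End ℝ V} (h : Commute W X) : Commute W (av p X) := by
  unfold av
  exact (Commute.sum_right _ _ _ fun a _ => h.pow_right a).smul_right _

lemma av_mul_of (hp : 0 < p) {W : Module.End ℝ V} (h : ∀ a, X ^ a * W = W) : av p X * W = W := by
  unfold av
  rw [smul_mul_assoc, sum_mul, sum_congr rfl (fun a _ => h a), sum_const, card_range,
    ← Nat.cast_smul_eq_nsmul ℝ, smul_smul, inv_mul_cancel₀ (by positivity), one_smul]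

lemma av_mul_av (hp : 0 < p) (hX : X ^ p = 1) : av p X * av p X = av p X :=
  av_mul_of hp fun a => pow_mul_av hX a

lemma inner_av_left (hX : X ^ p = 1) (hI : Iso X) (u v : V) :
    ⟪av p X u, v⟫_ℝ = ⟪u, av p X v⟫_ℝ := by
  unfold av
  rw [LinearMap.smul_apply, LinearMap.smul_apply, real_inner_smul_left, real_inner_smul_right]
  congr 1
  rw [LinearMap.sum_apply, LinearMap.sum_apply, sum_inner]
  have h1 : ∑ a ∈ range p, ⟪(X ^ a) u, v⟫_ℝ = ∑ a ∈ range p, ⟪u, (X ^ (p - a)) v⟫_ℝ := by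
    refine sum_congr rfl fun a ha => ?_
    rw [← hI.pow (p - a) ((X ^ a) u) v, ← Module.End.mul_apply, ← pow_add]
    have : p - a + a = p := by
      have := mem_range.1 ha
      omega
    rw [this, hX]
    rfl
  have h2 : ∑ a ∈ range p, ⟪u, (X ^ (p - a)) v⟫_ℝ =
      ∑ a ∈ range p, ⟪u, (X ^ (a + 1)) v⟫_ℝ := by
    rw [← sum_range_reflect]
    refine sum_congr rfl fun a ha => ?_
    have : p - (p - 1 - a) = a + 1 := by
      have := mem_range.1 ha
      omega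
    rw [this]
  have h3 : ∑ a ∈ range p, ⟪u, (X ^ (a + 1)) v⟫_ℝ =
      ⟪u, (X * ∑ a ∈ range p, X ^ a) v⟫_ℝ := by
    rw [mul_sum, LinearMap.sum_apply, inner_sum]
    exact sum_congr rfl fun a _ => by rw [pow_succ']
  rw [h1, h2, h3, mul_sum_pow hX, LinearMap.sum_apply]

lemma norm_av_sq (hp : 0 < p) (hX : X ^ p = 1) (hI : Iso X) (u : V) :
    ‖av p X u‖ ^ 2 = ⟪av p X u, u⟫_ℝ := by
  rw [← real_inner_self_eq_norm_sq, inner_av_left hX hI (u) (av p X u), ← Module.End.mul_apply,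
    av_mul_av hp hX, real_inner_comm]

/-- the commutation relation for powers -/
lemma rel_pow (hZ : Y * X = X * Y * Z) (cX : Commute Z X) (cY : Commute Z Y) (a b : ℕ) :
    Y ^ b * X ^ a = X ^ a * Y ^ b * Z ^ (a * b) := by
  have h1 : ∀ b : ℕ, Y ^ b * X = X * Y ^ b * Z ^ b := by
    intro b
    induction b with
    | zero => simp
    | succ n ih =>
      rw [pow_succ, mul_assoc, hZ, ← mul_assoc, ← mul_assoc, ih]
      have : X * Y ^ n * Z ^ n * Y * Z = X * Y ^ n * (Z ^ n * Y) * Z := by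
        simp only [mul_assoc]
      rw [this, (cY.pow_left n).eq, pow_succ]
      simp only [mul_assoc]
  induction a with
  | zero => simp
  | succ n ih =>
    rw [pow_succ, ← mul_assoc, ih, mul_assoc, (cX.pow_left (n * b)).eq, ← mul_assoc,
      mul_assoc (X ^ n) (Y ^ b) X, h1, add_mul, one_mul, pow_add]
    have : Commute (Z ^ b) (Z ^ (n * b)) := (Commute.refl Z).pow_pow _ _
    simp only [mul_assoc]
    rw [this.eq]

lemma Z_pow (hX : X ^ p = 1) (hY : Y ^ p = 1) (hp : 0 < p) (hZ : Y * X = X * Y * Z)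
    (cX : Commute Z X) (cY : Commute Z Y) : Z ^ p = 1 := by
  have h := rel_pow hZ cX cY p 1
  rw [hX, pow_one, mul_one, one_mul, mul_one] at h
  have h2 : Y ^ (p - 1) * Y = Y ^ (p - 1) * (Y * Z ^ p) := by rw [← h]
  rw [← mul_assoc, ← pow_succ, Nat.sub_add_cancel hp, hY, one_mul] at h2
  exact h2.symm

/-- Averages over the powers `Z ^ (a b)`. -/
lemma av_mul_index [Fact p.Prime] (hZp : Z ^ p = 1) {b : ℕ} (hb : 0 < b) (hbp : b < p) :
    ∑ a ∈ range p, Z ^ (a * b) = ∑ a ∈ range p, Z ^ a := by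
  have hpp : p.Prime := Fact.out
  have hmod : ∀ n, Z ^ n = Z ^ (n % p) := by
    intro n
    conv_lhs => rw [← Nat.div_add_mod n p, pow_add, pow_mul, hZp, one_pow, one_mul]
  have hinj : Set.InjOn (fun a => a * b % p) (range p : Set ℕ) := by
    intro a ha a' ha' h
    have ha1 := mem_range.1 (mem_coe.1 ha)
    have ha2 := mem_range.1 (mem_coe.1 ha')
    have h1 : a * b ≡ a' * b [MOD p] := h
    have h2 : Nat.gcd p b = 1 :=
      (Nat.Prime.coprime_iff_not_dvd hpp).2 fun h => absurd (Nat.le_of_dvd hb h) (by omega)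
    have h3 := Nat.ModEq.cancel_right_of_coprime h2 h1
    have h4 : a % p = a' % p := h3
    rwa [Nat.mod_eq_of_lt ha1, Nat.mod_eq_of_lt ha2] at h4
  have himg : (range p).image (fun a => a * b % p) = range p := by
    apply eq_of_subset_of_card_le
    · intro c hc
      obtain ⟨a, _, rfl⟩ := mem_image.1 hc
      exact mem_range.2 (Nat.mod_lt _ hpp.pos)
    · rw [card_image_of_injOn hinj]
  calc ∑ a ∈ range p, Z ^ (a * b) = ∑ a ∈ range p, Z ^ (a * b % p) :=
        sum_congr rfl fun a _ => hmod _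
    _ = ∑ c ∈ (range p).image (fun a => a * b % p), Z ^ c := (sum_image hinj).symm
    _ = _ := by rw [himg]

/-- Step 1 -/
theorem step1 [Fact p.Prime] (hX : X ^ p = 1) (hY : Y ^ p = 1) (iX : Iso X) (iY : Iso Y)
    (iZ : Iso Z) (hZ : Y * X = X * Y * Z) (cX : Commute Z X) (cY : Commute Z Y) (h : V)
    (hh : X h = h) (h0 : av p Y (av p Z h) = 0) :
    ‖av p Y h‖ ^ 2 ≤ (p : ℝ)⁻¹ * ‖h‖ ^ 2 := by
  have hpp : p.Prime := Fact.out
  have hp := hpp.pos
  have hZp : Z ^ p = 1 := Z_pow hX hY hp hZ cX cY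
  have hXa : ∀ a, (X ^ a) h = h := by
    intro a
    induction a with
    | zero => simp
    | succ n ih => rw [pow_succ, Module.End.mul_apply, hh, ih]
  have key : ∀ b, 0 < b → b < p → ⟪(Y ^ b) h, h⟫_ℝ = ⟪(Y ^ b) (av p Z h), av p Z h⟫_ℝ := by
    intro b hb hbp
    have h1 : ∀ a ∈ range p, ⟪(Y ^ b) h, h⟫_ℝ = ⟪(Y ^ b) ((Z ^ (a * b)) h), h⟫_ℝ := by
      intro a _
      have e1 : ⟪(Y ^ b) h, h⟫_ℝ = ⟪(Y ^ b * X ^ a) h, h⟫_ℝ := by
        rw [Module.End.mul_apply, hXa]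
      rw [e1, rel_pow hZ cX cY, mul_assoc, Module.End.mul_apply]
      conv_lhs => rw [← hXa a]
      have e2 : ⟪(X ^ a) ((Y ^ b * Z ^ (a * b)) ((X ^ a) h)), (X ^ a) h⟫_ℝ =
        ⟪(Y ^ b * Z ^ (a * b)) ((X ^ a) h), h⟫_ℝ := iX.pow a _ _
      rw [e2, hXa, Module.End.mul_apply]
    have h2 : (p : ℝ) * ⟪(Y ^ b) h, h⟫_ℝ = (p : ℝ) * ⟪(Y ^ b) (av p Z h), h⟫_ℝ := by
      have h3 : ∑ a ∈ range p, ⟪(Y ^ b) h, h⟫_ℝ =
          ∑ a ∈ range p, ⟪(Y ^ b) ((Z ^ (a * b)) h), h⟫_ℝ := sum_congr rfl h1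
      rw [sum_const, card_range, nsmul_eq_mul] at h3
      rw [h3, ← sum_inner, ← map_sum, ← LinearMap.sum_apply, av_mul_index hZp hb hbp]
      unfold av
      rw [LinearMap.smul_apply, map_smul, real_inner_smul_left, ← mul_assoc,
        mul_inv_cancel₀ (by positivity), one_mul]
    have h4 := mul_left_cancel₀ (by positivity : (p : ℝ) ≠ 0) h2
    rw [h4]
    have e3 : (Y ^ b) (av p Z h) = av p Z ((Y ^ b) (av p Z h)) := by
      have c1 : Commute (Y ^ b) (av p Z) := commute_av (cY.symm.pow_left b)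
      have c2 : av p Z * (Y ^ b * av p Z) = Y ^ b * av p Z := by
        rw [← mul_assoc, ← c1.eq, mul_assoc, av_mul_av hp hZp]
      rw [← Module.End.mul_apply, ← Module.End.mul_apply, c2]
    rw [e3, inner_av_left hZp iZ, ← e3]
  have hsum : ∀ u : V, ⟪av p Y u, u⟫_ℝ =
      (p : ℝ)⁻¹ * (⟪u, u⟫_ℝ + ∑ b ∈ Ico 1 p, ⟪(Y ^ b) u, u⟫_ℝ) := by
    intro u
    unfold av
    rw [LinearMap.smul_apply, real_inner_smul_left, LinearMap.sum_apply, sum_inner,
      range_eq_Ico, sum_eq_sum_Ico_succ_bot hp]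
    simp
  rw [norm_av_sq hp hY iY, hsum]
  have h5 : ∑ b ∈ Ico 1 p, ⟪(Y ^ b) h, h⟫_ℝ =
      ∑ b ∈ Ico 1 p, ⟪(Y ^ b) (av p Z h), av p Z h⟫_ℝ := by
    refine sum_congr rfl fun b hb => ?_
    have := mem_Ico.1 hb
    exact key b (by omega) this.2
  rw [h5]
  have h6 := hsum (av p Z h)
  rw [h0, inner_zero_left] at h6
  have h7 : (0 : ℝ) ≤ (p : ℝ)⁻¹ := by positivity
  have h8 : (0 : ℝ) ≤ ⟪av p Z h, av p Z h⟫_ℝ := real_inner_self_nonneg
  rw [real_inner_self_eq_norm_sq] at *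
  nlinarith [mul_nonneg h7 h8, norm_nonneg h]

/-- the main inequality in an inner product space -/
theorem main [Fact p.Prime] (hX : X ^ p = 1) (hY : Y ^ p = 1) (iX : Iso X) (iY : Iso Y)
    (iZ : Iso Z) (hZ : Y * X = X * Y * Z) (cX : Commute Z X) (cY : Commute Z Y) (f : V) :
    (1 - 1 / √(p : ℝ)) * ⟪f, (f - av p X f) + (f - av p Y f)⟫_ℝ ≤
      ‖(f - av p X f) + (f - av p Y f)‖ ^ 2 := by
  have hpp : p.Prime := Fact.out
  have hp := hpp.pos
  have hZp : Z ^ p = 1 := Z_pow hX hY hp hZ cX cY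
  set P := av p X with hP
  set P' := av p Y with hP'
  set R := av p Z with hR
  set e : ℝ := 1 / √(p : ℝ) with he
  have he0 : 0 < e := by positivity
  have he1 : e ≤ 1 := by
    rw [he, div_le_one (by positivity)]
    exact Real.one_le_sqrt.2 (by exact_mod_cast hpp.one_le)
  have he2 : e ^ 2 = (p : ℝ)⁻¹ := by
    rw [he, div_pow, Real.sq_sqrt (by positivity)]
    simp
  -- commutation
  have cRX : Commute X R := commute_av cX.symm
  have cRY : Commute Y R := commute_av cY.symm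
  have cRP : Commute R P := commute_av cRX.symm
  have cRP' : Commute R P' := commute_av cRY.symm
  have hPP : P * P = P := av_mul_av hp hX
  have hP'P' : P' * P' = P' := av_mul_av hp hY
  have hRR : R * R = R := av_mul_av hp hZp
  have hcomm : P * P' * R = P' * P * R := by
    have h1 : ∀ a b, X ^ a * Y ^ b * R = Y ^ b * X ^ a * R := by
      intro a b
      rw [rel_pow hZ cX cY, mul_assoc (X ^ a * Y ^ b), pow_mul_av hZp]
    have e1 : P * P' * R =
        (p : ℝ)⁻¹ • (p : ℝ)⁻¹ • ∑ a ∈ range p, ∑ b ∈ range p, X ^ a * Y ^ b * R := by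
      rw [hP, hP', av, av, smul_mul_assoc, mul_smul_comm, smul_mul_assoc, smul_mul_assoc,
        sum_mul_sum, sum_mul]
      simp only [sum_mul]
    have e2 : P' * P * R =
        (p : ℝ)⁻¹ • (p : ℝ)⁻¹ • ∑ b ∈ range p, ∑ a ∈ range p, Y ^ b * X ^ a * R := by
      rw [hP, hP', av, av, smul_mul_assoc, mul_smul_comm, smul_mul_assoc, smul_mul_assoc,
        sum_mul_sum, sum_mul]
      simp only [sum_mul]
    rw [e1, e2, sum_comm]
    simp only [h1]
  set L := P' * R * P with hL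
  have hP'L : P' * L = L := by
    rw [hL, ← mul_assoc, ← mul_assoc, hP'P']
  have hPL : P * L = L := by
    rw [hL, ← mul_assoc, ← mul_assoc, hcomm, mul_assoc (P' * P), cRP.eq, ← mul_assoc,
      mul_assoc P' P P, hPP, mul_assoc, ← cRP.eq, ← mul_assoc]
  have hLL : L * L = L := by
    conv_lhs => rw [hL]
    rw [mul_assoc, hPL, mul_assoc]
    rw [hL, ← mul_assoc R, ← mul_assoc R, cRP'.eq, mul_assoc P' R R, hRR, ← mul_assoc,
      ← mul_assoc, hP'P']
  have aP : ∀ u v : V, ⟪P u, v⟫_ℝ = ⟪u, P v⟫_ℝ := inner_av_left hX iX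
  have aP' : ∀ u v : V, ⟪P' u, v⟫_ℝ = ⟪u, P' v⟫_ℝ := inner_av_left hY iY
  obtain ⟨g, hg⟩ : ∃ g : V, g = f - L f := ⟨_, rfl⟩
  have hLg : L g = 0 := by
    rw [hg, map_sub, ← Module.End.mul_apply, hLL, sub_self]
  have hPLf : P (L f) = L f := by rw [← Module.End.mul_apply, hPL]
  have hP'Lf : P' (L f) = L f := by rw [← Module.End.mul_apply, hP'L]
  have hD : (f - P f) + (f - P' f) = (g - P g) + (g - P' g) := by
    rw [hg, map_sub, map_sub, hPLf, hP'Lf]
    abel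
  have hDL : ⟪L f, (g - P g) + (g - P' g)⟫_ℝ = 0 := by
    rw [inner_add_right, inner_sub_right, inner_sub_right, ← aP, ← aP', hPLf, hP'Lf]
    ring
  have hff : ⟪f, (f - P f) + (f - P' f)⟫_ℝ = ⟪g, (g - P g) + (g - P' g)⟫_ℝ := by
    rw [hD]
    have : f = g + L f := by rw [hg]; abel
    conv_lhs => rw [this]
    rw [inner_add_left, hDL, add_zero]
  rw [hff, hD]
  -- step 1
  have h1 : ‖P' (P g)‖ ^ 2 ≤ (p : ℝ)⁻¹ * ‖P g‖ ^ 2 := by
    refine step1 hX hY iX iY iZ hZ cX cY (P g) ?_ ?_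
    · rw [hP, ← Module.End.mul_apply, mul_av hX]
    · have : L g = P' (R (P g)) := rfl
      rw [← this]
      exact hLg
  have h2 : ‖P' (P g)‖ ≤ e * ‖P g‖ := by
    rw [← he2, ← mul_pow] at h1
    exact le_of_sq_le_sq h1 (by positivity)
  have hnP : ‖P g‖ ^ 2 = ⟪P g, g⟫_ℝ := norm_av_sq hp hX iX g
  have hnP' : ‖P' g‖ ^ 2 = ⟪P' g, g⟫_ℝ := norm_av_sq hp hY iY g
  have h3 : ⟪P g, P' g⟫_ℝ ≤ e * ‖P g‖ * ‖P' g‖ := by
    have : ⟪P g, P' g⟫_ℝ = ⟪P' (P g), P' g⟫_ℝ := by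
      rw [aP', ← Module.End.mul_apply P' P', hP'P']
    rw [this]
    exact (real_inner_le_norm _ _).trans (mul_le_mul_of_nonneg_right h2 (norm_nonneg _))
  -- step 2
  set s : ℝ := ‖P g‖ ^ 2 + ‖P' g‖ ^ 2 with hs
  have hs0 : 0 ≤ s := by positivity
  have h4 : ‖P g + P' g‖ ^ 2 ≤ (1 + e) * s := by
    rw [norm_add_sq_real]
    nlinarith [sq_nonneg (‖P g‖ - ‖P' g‖), mul_nonneg he0.le (sq_nonneg (‖P g‖ - ‖P' g‖))]
  have h5 : s = ⟪g, P g + P' g⟫_ℝ := by
    rw [hs, hnP, hnP', inner_add_right, real_inner_comm, real_inner_comm (P' g)]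
  have h6 : s ≤ ‖g‖ * ‖P g + P' g‖ := by
    rw [h5]
    exact real_inner_le_norm _ _
  have h7 : s ≤ (1 + e) * ‖g‖ ^ 2 := by
    have h8 : s * s ≤ ‖g‖ ^ 2 * ((1 + e) * s) := by
      calc s * s ≤ (‖g‖ * ‖P g + P' g‖) * (‖g‖ * ‖P g + P' g‖) :=
            mul_le_mul h6 h6 hs0 (hs0.trans h6)
        _ = ‖g‖ ^ 2 * ‖P g + P' g‖ ^ 2 := by ring
        _ ≤ _ := mul_le_mul_of_nonneg_left h4 (by positivity)
    rcases hs0.eq_or_lt with h9 | h9
    · rw [← h9]
      positivity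
    · nlinarith
  -- step 3
  set w : V := (g - P g) + (g - P' g) with hw
  have h10 : ⟪g, w⟫_ℝ = 2 * ‖g‖ ^ 2 - s := by
    rw [hw, inner_add_right, inner_sub_right, inner_sub_right, real_inner_self_eq_norm_sq, h5,
      inner_add_right]
    ring
  have h11 : (1 - e) * ‖g‖ ^ 2 ≤ ⟪g, w⟫_ℝ := by
    rw [h10]
    nlinarith
  have h12 : ⟪g, w⟫_ℝ ≤ ‖g‖ * ‖w‖ := real_inner_le_norm _ _
  have h13 : 0 ≤ 1 - e := by linarith
  rcases (norm_nonneg g).eq_or_lt with h14 | h14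
  · rw [← h14] at h12
    nlinarith [norm_nonneg w, sq_nonneg ‖w‖]
  · have h15 : (1 - e) * ‖g‖ ≤ ‖w‖ := by
      have : ((1 - e) * ‖g‖) * ‖g‖ ≤ ‖w‖ * ‖g‖ := by nlinarith
      exact le_of_mul_le_mul_right this h14
    calc (1 - e) * ⟪g, w⟫_ℝ ≤ (1 - e) * (‖g‖ * ‖w‖) := mul_le_mul_of_nonneg_left h12 h13
      _ = ((1 - e) * ‖g‖) * ‖w‖ := by ring
      _ ≤ ‖w‖ * ‖w‖ := mul_le_mul_of_nonneg_right h15 (norm_nonneg _)
      _ = ‖w‖ ^ 2 := by ring

/-! ## permutations -/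

variable {A : Type} [Fintype A]

/-- the operator `f ↦ f ∘ σ` -/
def Uop (σ : Equiv.Perm A) : Module.End ℝ (EuclideanSpace ℝ A) where
  toFun f := WithLp.toLp 2 fun s => f (σ s)
  map_add' f g := by
    ext s
    rfl
  map_smul' c f := by
    ext s
    rfl

lemma Uop_apply (σ : Equiv.Perm A) (f : EuclideanSpace ℝ A) (s : A) : Uop σ f s = f (σ s) := rfl

lemma Uop_mul (σ τ : Equiv.Perm A) : Uop σ * Uop τ = Uop (τ * σ) := by
  ext f s
  rfl

lemma Uop_one : Uop (1 : Equiv.Perm A) = 1 := by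
  ext f s
  rfl

lemma Uop_pow (σ : Equiv.Perm A) (a : ℕ) : Uop σ ^ a = Uop (σ ^ a) := by
  induction a with
  | zero => rw [pow_zero, pow_zero, Uop_one]
  | succ n ih => rw [pow_succ, ih, Uop_mul, pow_succ']

lemma Uop_iso (σ : Equiv.Perm A) : Iso (Uop σ) := by
  intro u v
  rw [PiLp.inner_apply, PiLp.inner_apply]
  exact Equiv.sum_comp σ (fun s => ⟪u s, v s⟫_ℝ)

lemma Uop_comm {σ τ : Equiv.Perm A} (h : Commute σ τ) : Commute (Uop σ) (Uop τ) := by
  show Uop σ * Uop τ = Uop τ * Uop σ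
  rw [Uop_mul, Uop_mul, h.eq]

theorem heisIneq : HeisIneq := by
  intro A _ p _ x y hx hy cx cy f
  set F : EuclideanSpace ℝ A := WithLp.toLp 2 f with hF
  have h := main (p := p) (X := Uop x) (Y := Uop y) (Z := Uop (x * y * x⁻¹ * y⁻¹))
    (by rw [Uop_pow, hx, Uop_one]) (by rw [Uop_pow, hy, Uop_one]) (Uop_iso _) (Uop_iso _)
    (Uop_iso _) (by
      rw [Uop_mul, Uop_mul, Uop_mul]
      congr 1
      group) (Uop_comm cx) (Uop_comm cy) F
  have hav : ∀ (σ : Equiv.Perm A) (s : A), (F - av p (Uop σ) F) s = Qop p σ f s := by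
    intro σ s
    unfold av Qop
    rw [LinearMap.smul_apply, LinearMap.sum_apply, PiLp.sub_apply, PiLp.smul_apply]
    have : (∑ a ∈ range p, (Uop σ ^ a) F) s = ∑ a ∈ range p, f ((σ ^ a) s) := by
      rw [WithLp.ofLp_sum, Finset.sum_apply]
      refine sum_congr rfl fun a _ => ?_
      rw [Uop_pow]
      rfl
    rw [this, smul_eq_mul, div_eq_inv_mul]
  have hs : ∀ s, ((F - av p (Uop x) F) + (F - av p (Uop y) F)) s =
      Qop p x f s + Qop p y f s := by
    intro s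
    rw [PiLp.add_apply, hav, hav]
  have h1 : ⟪F, (F - av p (Uop x) F) + (F - av p (Uop y) F)⟫_ℝ =
      ∑ s, f s * (Qop p x f s + Qop p y f s) := by
    rw [PiLp.inner_apply]
    refine sum_congr rfl fun s _ => ?_
    rw [hs, real_inner_eq_re_inner, RCLike.inner_apply]
    simp [hF, mul_comm]
  have h2 : ‖(F - av p (Uop x) F) + (F - av p (Uop y) F)‖ ^ 2 =
      ∑ s, (Qop p x f s + Qop p y f s) ^ 2 := by
    rw [EuclideanSpace.norm_sq_eq]
    refine sum_congr rfl fun s _ => ?_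
    rw [hs, Real.norm_eq_abs, sq_abs]
  rw [h1, h2] at h
  exact h

end Pool.Agent.Helper75.Sof
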